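import Pool.Agent.Helper70.EC.St

/-! Module CORE of project EC (MP_5c9371_al), helper92. -/

set_option autoImplicit false

namespace Pool.Agent.Helper92.EC

open Finset
open Pool.Agent.Helper70.EC
open Pool.Agent.Helper1.PFS (G)

variable {p : ℕ} [Fact p.Prime]

lemma TT_sub_left (f f' g k : G p → ℝ) :
    TT (fun x => f x - f' x) g k = TT f g k - TT f' g k := by
  unfold TT
  rw [← sum_sub_distrib]
  refine sum_congr rfl fun a _ => ?_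
  rw [← sum_sub_distrib]
  refine sum_congr rfl fun b _ => ?_
  ring

lemma TT_sub_mid (f g g' k : G p → ℝ) :
    TT f (fun x => g x - g' x) k = TT f g k - TT f g' k := by
  unfold TT
  rw [← sum_sub_distrib]
  refine sum_congr rfl fun a _ => ?_
  rw [← sum_sub_distrib]
  refine sum_congr rfl fun b _ => ?_
  ring

lemma TT_sub_right (f g k k' : G p → ℝ) :
    TT f g (fun x => k x - k' x) = TT f g k - TT f g k' := by
  unfold TT
  rw [← sum_sub_distrib]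
  refine sum_congr rfl fun a _ => ?_
  rw [← sum_sub_distrib]
  refine sum_congr rfl fun b _ => ?_
  ring

lemma TT_sum_left {ι : Type*} (E : Finset ι) (f : ι → G p → ℝ) (g k : G p → ℝ) :
    TT (fun x => ∑ e ∈ E, f e x) g k = ∑ e ∈ E, TT (f e) g k := by
  unfold TT
  symm
  rw [sum_comm]
  refine sum_congr rfl fun a _ => ?_
  rw [sum_comm]
  refine sum_congr rfl fun b _ => ?_
  rw [sum_mul, sum_mul]

lemma TT_sum_mid {ι : Type*} (E : Finset ι) (f : G p → ℝ) (g : ι → G p → ℝ) (k : G p → ℝ) :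
    TT f (fun x => ∑ e ∈ E, g e x) k = ∑ e ∈ E, TT f (g e) k := by
  unfold TT
  symm
  rw [sum_comm]
  refine sum_congr rfl fun a _ => ?_
  rw [sum_comm]
  refine sum_congr rfl fun b _ => ?_
  rw [mul_sum, sum_mul]

lemma TT_sum_right {ι : Type*} (E : Finset ι) (f g : G p → ℝ) (k : ι → G p → ℝ) :
    TT f g (fun x => ∑ e ∈ E, k e x) = ∑ e ∈ E, TT f g (k e) := by
  unfold TT
  symm
  rw [sum_comm]
  refine sum_congr rfl fun a _ => ?_
  rw [sum_comm]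
  refine sum_congr rfl fun b _ => ?_
  rw [mul_sum]

lemma nsq_nonneg (f : G p → ℝ) : 0 ≤ nsq f := sum_nonneg fun _ _ => sq_nonneg _

lemma nsq_le_sum {f : G p → ℝ} (h0 : ∀ g, 0 ≤ f g) (h1 : ∀ g, f g ≤ 1) : nsq f ≤ ∑ g, f g := by
  unfold nsq
  refine sum_le_sum fun g _ => ?_
  have := h0 g
  have := h1 g
  nlinarith

/-- lower bound for the nondegenerate triples -/
lemma degenerate (E : Finset (Pt p × Pt p)) (w : Pt p × Pt p → ℝ) (hw : ∀ e ∈ E, 0 ≤ w e)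
    (W : ℝ) (hW : W = ∑ e ∈ E, w e)
    (c1 : ∀ v : Pt p, (open Classical in ∑ e ∈ E, (if e.1 = v then w e else 0)) ≤ W / 6)
    (c2 : ∀ v : Pt p, (open Classical in ∑ e ∈ E, (if e.2 = v then w e else 0)) ≤ W / 6) :
    W ^ 3 / 2 ≤ (open Classical in ∑ e₁ ∈ E, ∑ e₂ ∈ E, ∑ e₃ ∈ E,
    (if e₁.1 ≠ e₂.2 ∧ e₂.1 ≠ e₃.1 ∧ e₁.2 ≠ e₃.2 then w e₁ * w e₂ * w e₃ else 0)) := by
  classical
  have hW0 : 0 ≤ W := by rw [hW]; exact sum_nonneg hw
  have hA : ∑ e₁ ∈ E, ∑ e₂ ∈ E, ∑ e₃ ∈ E, (w e₁ * w e₂ * w e₃) = W ^ 3 := by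
    simp_rw [← mul_sum, ← sum_mul, ← mul_sum, ← sum_mul]
    rw [hW]
    ring
  have hB1 : ∑ e₁ ∈ E, ∑ e₂ ∈ E, ∑ e₃ ∈ E,
      ((if e₂.2 = e₁.1 then w e₂ else 0) * (w e₁ * w e₃)) ≤ W ^ 3 / 6 := by
    calc _ = ∑ e₁ ∈ E, w e₁ * ((∑ e₂ ∈ E, (if e₂.2 = e₁.1 then w e₂ else 0)) * W) := by
          refine sum_congr rfl fun e₁ _ => ?_
          rw [sum_mul, mul_sum]
          refine sum_congr rfl fun e₂ _ => ?_
          rw [← mul_sum, ← mul_sum, ← hW]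
          ring
      _ ≤ ∑ e₁ ∈ E, w e₁ * (W / 6 * W) := by
          refine sum_le_sum fun e₁ h₁ => mul_le_mul_of_nonneg_left ?_ (hw e₁ h₁)
          exact mul_le_mul_of_nonneg_right (by convert c2 e₁.1) hW0
      _ = W ^ 3 / 6 := by rw [← sum_mul, ← hW]; ring
  have hB2 : ∑ e₁ ∈ E, ∑ e₂ ∈ E, ∑ e₃ ∈ E,
      ((if e₃.1 = e₂.1 then w e₃ else 0) * (w e₁ * w e₂)) ≤ W ^ 3 / 6 := by
    calc _ = ∑ e₁ ∈ E, ∑ e₂ ∈ E, (w e₁ * w e₂) * ∑ e₃ ∈ E, (if e₃.1 = e₂.1 then w e₃ else 0) := by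
          refine sum_congr rfl fun e₁ _ => sum_congr rfl fun e₂ _ => ?_
          rw [← sum_mul]
          ring
      _ ≤ ∑ e₁ ∈ E, ∑ e₂ ∈ E, (w e₁ * w e₂) * (W / 6) := by
          refine sum_le_sum fun e₁ h₁ => sum_le_sum fun e₂ h₂ => mul_le_mul_of_nonneg_left ?_
            (mul_nonneg (hw e₁ h₁) (hw e₂ h₂))
          convert c1 e₂.1
      _ = W ^ 3 / 6 := by
          simp_rw [← sum_mul, ← mul_sum, ← sum_mul]
          rw [← hW]; ring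
  have hB3 : ∑ e₁ ∈ E, ∑ e₂ ∈ E, ∑ e₃ ∈ E,
      ((if e₃.2 = e₁.2 then w e₃ else 0) * (w e₁ * w e₂)) ≤ W ^ 3 / 6 := by
    calc _ = ∑ e₁ ∈ E, ∑ e₂ ∈ E, (w e₁ * w e₂) * ∑ e₃ ∈ E, (if e₃.2 = e₁.2 then w e₃ else 0) := by
          refine sum_congr rfl fun e₁ _ => sum_congr rfl fun e₂ _ => ?_
          rw [← sum_mul]
          ring
      _ ≤ ∑ e₁ ∈ E, ∑ e₂ ∈ E, (w e₁ * w e₂) * (W / 6) := by
          refine sum_le_sum fun e₁ h₁ => sum_le_sum fun e₂ h₂ => mul_le_mul_of_nonneg_left ?_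
            (mul_nonneg (hw e₁ h₁) (hw e₂ h₂))
          convert c2 e₁.2
      _ = W ^ 3 / 6 := by
          simp_rw [← sum_mul, ← mul_sum, ← sum_mul]
          rw [← hW]; ring
  have hC : ∑ e₁ ∈ E, ∑ e₂ ∈ E, ∑ e₃ ∈ E, (w e₁ * w e₂ * w e₃)
      - ∑ e₁ ∈ E, ∑ e₂ ∈ E, ∑ e₃ ∈ E, ((if e₂.2 = e₁.1 then w e₂ else 0) * (w e₁ * w e₃))
      - ∑ e₁ ∈ E, ∑ e₂ ∈ E, ∑ e₃ ∈ E, ((if e₃.1 = e₂.1 then w e₃ else 0) * (w e₁ * w e₂))
      - ∑ e₁ ∈ E, ∑ e₂ ∈ E, ∑ e₃ ∈ E, ((if e₃.2 = e₁.2 then w e₃ else 0) * (w e₁ * w e₂))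
      ≤ (∑ e₁ ∈ E, ∑ e₂ ∈ E, ∑ e₃ ∈ E,
        (if e₁.1 ≠ e₂.2 ∧ e₂.1 ≠ e₃.1 ∧ e₁.2 ≠ e₃.2 then w e₁ * w e₂ * w e₃ else 0)) := by
    simp only [← sum_sub_distrib]
    refine sum_le_sum fun e₁ h₁ => sum_le_sum fun e₂ h₂ => sum_le_sum fun e₃ h₃ => ?_
    have n1 := hw e₁ h₁
    have n2 := hw e₂ h₂
    have n3 := hw e₃ h₃
    have n : 0 ≤ w e₁ * w e₂ * w e₃ := by positivity
    have a1 : 0 ≤ (if e₂.2 = e₁.1 then w e₂ else 0) * (w e₁ * w e₃) := by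
      split_ifs <;> positivity
    have a2 : 0 ≤ (if e₃.1 = e₂.1 then w e₃ else 0) * (w e₁ * w e₂) := by
      split_ifs <;> positivity
    have a3 : 0 ≤ (if e₃.2 = e₁.2 then w e₃ else 0) * (w e₁ * w e₂) := by
      split_ifs <;> positivity
    by_cases hn : e₁.1 ≠ e₂.2 ∧ e₂.1 ≠ e₃.1 ∧ e₁.2 ≠ e₃.2
    · rw [if_pos hn]
      linarith
    · rw [if_neg hn]
      by_cases b1 : e₂.2 = e₁.1
      · rw [if_pos b1] at a1 ⊢
        linarith [mul_comm (w e₂) (w e₁ * w e₃), mul_right_comm (w e₁) (w e₃) (w e₂)]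
      · by_cases b2 : e₃.1 = e₂.1
        · rw [if_pos b2] at a2 ⊢
          linarith [mul_comm (w e₃) (w e₁ * w e₂)]
        · by_cases b3 : e₃.2 = e₁.2
          · rw [if_pos b3] at a3 ⊢
            linarith [mul_comm (w e₃) (w e₁ * w e₂)]
          · exact absurd ⟨fun h => b1 h.symm, fun h => b2 h.symm, fun h => b3 h.symm⟩ hn
  have hD : W ^ 3 / 2 ≤ (∑ e₁ ∈ E, ∑ e₂ ∈ E, ∑ e₃ ∈ E,
        (if e₁.1 ≠ e₂.2 ∧ e₂.1 ≠ e₃.1 ∧ e₁.2 ≠ e₃.2 then w e₁ * w e₂ * w e₃ else 0)) := by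
    linarith
  convert hD

theorem hCORE (hS1 : StS1) (hS23 : StS23) (hMAIN : StMAIN) (hL2 : StL2) : StCORE := by
  intro p _ E f hsupp h0 hEp hle hTT hc1 hc2
  set w : Pt p × Pt p → ℝ := fun e => ∑ g, f e g with hwdef
  set W : ℝ := ∑ e ∈ E, w e with hWdef
  have hw : ∀ e ∈ E, 0 ≤ w e := fun e he => sum_nonneg fun g _ => h0 e he g
  have hW0 : 0 ≤ W := sum_nonneg hw
  have hp : (0 : ℝ) < p := by exact_mod_cast (Fact.out : p.Prime).pos
  have hf1 : ∀ e ∈ E, ∀ g, f e g ≤ 1 := fun e he g =>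
    le_trans (single_le_sum (f := fun e => f e g) (fun e he => h0 e he g) he) (hle g)
  set F : G p → ℝ := fun g => ∑ e ∈ E, f e g with hF
  set B : G p → ℝ := fun g => ∑ e ∈ E, av e.1 e.2 (f e) g with hB
  have nF : nsq F ≤ W := by
    have h1 : nsq F ≤ ∑ g, F g :=
      nsq_le_sum (fun g => sum_nonneg fun e he => h0 e he g) hle
    have h2 : ∑ g, F g = W := by
      rw [hWdef]
      exact sum_comm
    linarith
  have nf : ∀ e ∈ E, nsq (f e) ≤ w e := fun e he => nsq_le_sum (h0 e he) (hf1 e he)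
  have nB : nsq B ≤ 2 * W := by
    have h1 : nsq B ≤ (1 + (E.card : ℝ) / p) * W := hL2 p E f hsupp h0 hf1
    have h2 : (E.card : ℝ) / p ≤ 1 := by
      rw [div_le_one hp]
      exact_mod_cast hEp
    have h3 : (1 + (E.card : ℝ) / p) * W ≤ 2 * W := mul_le_mul_of_nonneg_right (by linarith) hW0
    linarith
  have e1 : TT F F F - TT B F F = ∑ e ∈ E, TT (fun g => f e g - av e.1 e.2 (f e) g) F F := by
    rw [← TT_sum_left, ← TT_sub_left]
    congr 1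
    funext g
    simp [hF, hB]
  have e2 : TT B F F - TT B B F = ∑ e ∈ E, TT B (fun g => f e g - av e.1 e.2 (f e) g) F := by
    rw [← TT_sum_mid, ← TT_sub_mid]
    congr 1
    funext g
    simp [hF, hB]
  have e3 : TT B B F - TT B B B = ∑ e ∈ E, TT B B (fun g => f e g - av e.1 e.2 (f e) g) := by
    rw [← TT_sum_right, ← TT_sub_right]
    congr 1
    funext g
    simp [hF, hB]
  set s : Pt p × Pt p → ℝ := fun e => Real.sqrt (2 * p * w e) with hs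
  have hs0 : ∀ e, 0 ≤ s e := fun e => Real.sqrt_nonneg _
  have hs2 : ∀ e ∈ E, s e ^ 2 = 2 * p * w e := fun e he =>
    Real.sq_sqrt (by have := hw e he; positivity)
  have key : ∀ e ∈ E, ∀ (X a b c : ℝ), X ^ 2 ≤ 2 * p * nsq (f e) * a * b → 0 ≤ a → 0 ≤ b → 0 ≤ c →
      a * b ≤ c ^ 2 → |X| ≤ s e * c := by
    intro e he X a b c hX ha hb hc hab
    apply abs_le_of_sq_le_sq _ (mul_nonneg (hs0 e) hc)
    rw [mul_pow, hs2 e he]
    calc X ^ 2 ≤ 2 * p * nsq (f e) * a * b := hX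
      _ = (2 * p * (a * b)) * nsq (f e) := by ring
      _ ≤ (2 * p * (a * b)) * w e :=
          mul_le_mul_of_nonneg_left (nf e he) (by positivity)
      _ = (2 * p * w e) * (a * b) := by ring
      _ ≤ (2 * p * w e) * c ^ 2 :=
          mul_le_mul_of_nonneg_left hab (by have := hw e he; positivity)
  have nF0 := nsq_nonneg F
  have nB0 := nsq_nonneg B
  have k1 : ∀ e ∈ E, |TT (fun g => f e g - av e.1 e.2 (f e) g) F F| ≤ s e * W := fun e he =>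
    key e he _ (nsq F) (nsq F) W (hS1 p e.1 e.2 (f e) F F (hsupp e he)) nF0 nF0 hW0
      (by rw [sq]; exact mul_le_mul nF nF nF0 hW0)
  have k2 : ∀ e ∈ E, |TT B (fun g => f e g - av e.1 e.2 (f e) g) F| ≤ s e * (3 / 2 * W) :=
    fun e he =>
    key e he _ (nsq B) (nsq F) (3 / 2 * W) ((hS23 p e.1 e.2 (f e) B F (hsupp e he)).1) nB0 nF0
      (by positivity) (by
        have := mul_le_mul nB nF nF0 (by positivity)
        nlinarith)
  have k3 : ∀ e ∈ E, |TT B B (fun g => f e g - av e.1 e.2 (f e) g)| ≤ s e * (2 * W) :=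
    fun e he =>
    key e he _ (nsq B) (nsq B) (2 * W) ((hS23 p e.1 e.2 (f e) B B (hsupp e he)).2) nB0 nB0
      (by positivity) (by rw [sq]; exact mul_le_mul nB nB nB0 (by positivity))
  set Y : ℝ := ∑ e ∈ E, s e with hY
  have hY0 : 0 ≤ Y := sum_nonneg fun e _ => hs0 e
  have b1 : -(∑ e ∈ E, TT (fun g => f e g - av e.1 e.2 (f e) g) F F) ≤ Y * W := by
    rw [← sum_neg_distrib, hY, sum_mul]
    exact sum_le_sum fun e he => le_trans (neg_le_abs _) (k1 e he)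
  have b2 : -(∑ e ∈ E, TT B (fun g => f e g - av e.1 e.2 (f e) g) F) ≤ Y * (3 / 2 * W) := by
    rw [← sum_neg_distrib, hY, sum_mul]
    exact sum_le_sum fun e he => le_trans (neg_le_abs _) (k2 e he)
  have b3 : -(∑ e ∈ E, TT B B (fun g => f e g - av e.1 e.2 (f e) g)) ≤ Y * (2 * W) := by
    rw [← sum_neg_distrib, hY, sum_mul]
    exact sum_le_sum fun e he => le_trans (neg_le_abs _) (k3 e he)
  have hBBB : TT B B B ≤ 9 / 2 * (Y * W) := by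
    have : TT F F F = 0 := hTT
    linarith
  have hdeg : W ^ 3 / 2 ≤ (p : ℝ) ^ 3 * TT B B B :=
    le_trans (degenerate E w hw W hWdef hc1 hc2) (hMAIN p E f hsupp h0)
  have hp3 : (0 : ℝ) < (p : ℝ) ^ 3 := by positivity
  have h1 : W ^ 3 / 2 ≤ (p : ℝ) ^ 3 * (9 / 2 * (Y * W)) :=
    le_trans hdeg (mul_le_mul_of_nonneg_left hBBB hp3.le)
  have hYsq : Y ^ 2 ≤ E.card * (2 * p * W) := by
    calc Y ^ 2 ≤ E.card * ∑ e ∈ E, s e ^ 2 := sq_sum_le_card_mul_sum_sq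
      _ = E.card * (2 * p * W) := by
          rw [sum_congr rfl hs2, ← mul_sum, ← hWdef]
  rcases hW0.eq_or_lt with hz | hpos
  · have hz' : W ^ 3 = 0 := by
      rw [← hz]
      norm_num
    rw [hz']
    positivity
  · have h2 : W ^ 2 ≤ 9 * (p : ℝ) ^ 3 * Y := by
      have h3 : W * W ^ 2 ≤ W * (9 * (p : ℝ) ^ 3 * Y) := by
        have e4 : W * W ^ 2 = 2 * (W ^ 3 / 2) := by ring
        have e5 : W * (9 * (p : ℝ) ^ 3 * Y) = 2 * ((p : ℝ) ^ 3 * (9 / 2 * (Y * W))) := by ring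
        rw [e4, e5]
        exact mul_le_mul_of_nonneg_left h1 (by norm_num)
      exact le_of_mul_le_mul_left h3 hpos
    have h4 : (W ^ 2) ^ 2 ≤ (9 * (p : ℝ) ^ 3 * Y) ^ 2 := pow_le_pow_left₀ (by positivity) h2 2
    have h5 : (9 * (p : ℝ) ^ 3 * Y) ^ 2 ≤ 81 * (p : ℝ) ^ 6 * (E.card * (2 * p * W)) := by
      calc (9 * (p : ℝ) ^ 3 * Y) ^ 2 = 81 * (p : ℝ) ^ 6 * Y ^ 2 := by ring
        _ ≤ _ := mul_le_mul_of_nonneg_left hYsq (by positivity)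
    have h6 : W * W ^ 3 ≤ W * (162 * (p : ℝ) ^ 7 * E.card) := by
      calc W * W ^ 3 = (W ^ 2) ^ 2 := by ring
        _ ≤ 81 * (p : ℝ) ^ 6 * (E.card * (2 * p * W)) := le_trans h4 h5
        _ = W * (162 * (p : ℝ) ^ 7 * E.card) := by ring
    exact le_of_mul_le_mul_left h6 hpos

end Pool.Agent.Helper92.EC
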